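import Pool.Agent.Helper93.RC.Spec

/-!
Module E: assembling the topological embedding of the circle.
-/

namespace Pool.Agent.Helper67.RC

open Pool.Agent.Helper93.RC Filter Topology

theorem continuous_toBdry {X : Type*} (G : SimpleGraph X) (e : X) (N : ℝ → ℝ → ℝ) :
    Continuous (fun γ : Stratum G e N => γ.toBdry) := by
  rw [continuous_iff_coinduced_le]
  exact le_iSup (fun N : ℝ → ℝ → ℝ =>
    TopologicalSpace.coinduced (fun γ : Stratum G e N => γ.toBdry) inferInstance) N

theorem isClosed_bdry {X : Type*} {G : SimpleGraph X} {e : X} {S : Set (MorseBdry G e)}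
    (h : ∀ N : ℝ → ℝ → ℝ, IsClosed ((fun γ : Stratum G e N => γ.toBdry) ⁻¹' S)) :
    IsClosed S := by
  have h2 : ∀ N : ℝ → ℝ → ℝ, IsOpen ((fun γ : Stratum G e N => γ.toBdry) ⁻¹' Sᶜ) := by
    intro N
    rw [Set.preimage_compl]
    exact (h N).isOpen_compl
  rw [← isOpen_compl_iff]
  have : @IsOpen _ (⨆ N : ℝ → ℝ → ℝ,
      TopologicalSpace.coinduced (fun γ : Stratum G e N => γ.toBdry) inferInstance) Sᶜ := by
    rw [isOpen_iSup_iff]
    intro N
    rw [isOpen_coinduced]
    exact h2 N
  exact this

theorem mod_E : ST_E := by
  intro A X _ _ G e hG q hq hqs ex N E hgeo hmor hloc hiff hE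
  classical
  -- the map into the stratum
  let g : A → Stratum G e N := fun a => ⟨ex a, hgeo a, hmor a⟩
  have hg : Continuous g := by
    rw [continuous_induced_rng]
    letI : TopologicalSpace X := ⊥
    have : Continuous (fun a => ex a) := continuous_pi (fun t => (hloc t).continuous)
    exact this
  let F : A → MorseBdry G e := fun a => (g a).toBdry
  have hF : Continuous F := (continuous_toBdry G e N).comp hg
  have hFq : ∀ a b, q a = q b ↔ F a = F b := by
    intro a b
    rw [hiff]
    constructor
    · intro h
      exact Quotient.sound h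
    · intro h
      exact Quotient.exact h
  choose s hs using hqs
  let f : Circle → MorseBdry G e := fun z => F (s z)
  have hfq : ∀ a, f (q a) = F a := by
    intro a
    exact (hFq _ _).mp (hs (q a))
  have hclosedq : IsClosedMap q := hq.isClosedMap
  have hquot : IsQuotientMap q := hclosedq.isQuotientMap hq (fun z => ⟨s z, hs z⟩)
  have hfcont : Continuous f := by
    rw [hquot.continuous_iff]
    have : f ∘ q = F := funext hfq
    rw [this]
    exact hF
  have hfinj : Function.Injective f := by
    intro z w hzw
    have h1 := (hFq (s z) (s w)).mpr hzw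
    rw [hs, hs] at h1
    exact h1
  have hfclosed : IsClosedMap f := by
    intro C hC
    apply isClosed_bdry
    intro N'
    have hset : (fun γ : Stratum G e N' => γ.toBdry) ⁻¹' (f '' C) =
        Prod.fst '' {p : Stratum G e N' × A | q p.2 ∈ C ∧ ∀ t, G.dist (ex p.2 t) (p.1.1 t) ≤ E} := by
      ext γ
      simp only [Set.mem_preimage, Set.mem_image, Set.mem_setOf_eq, Prod.exists,
        exists_and_right, exists_eq_right]
      constructor
      · rintro ⟨z, hz, hzγ⟩
        refine ⟨s z, by rw [hs]; exact hz, ?_⟩
        have h1 : Asym G (ex (s z)) γ.1 := Quotient.exact hzγ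
        exact hE (s z) γ.1 γ.2.1 h1
      · rintro ⟨a, ha, hd⟩
        refine ⟨q a, ha, ?_⟩
        rw [hfq]
        apply Quotient.sound
        exact ⟨E, fun t => ⟨hd t, hG.preconnected _ _⟩⟩
    rw [hset]
    apply isClosedMap_fst_of_compactSpace
    rw [Set.setOf_and]
    apply IsClosed.inter
    · exact hC.preimage (hq.comp continuous_snd)
    · rw [Set.setOf_forall]
      apply isClosed_iInter
      intro t
      letI : TopologicalSpace X := ⊥
      haveI : DiscreteTopology X := ⟨rfl⟩
      have hc : Continuous (fun p : Stratum G e N' × A => ((ex p.2 t, p.1.1 t) : X × X)) := by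
        apply Continuous.prodMk
        · exact (hloc t).continuous.comp continuous_snd
        · have h1 : Continuous (fun γ : Stratum G e N' => γ.1) := continuous_induced_dom
          have h2 : Continuous (fun γ : Stratum G e N' => γ.1 t) := (continuous_apply t).comp h1
          exact h2.comp continuous_fst
      have : IsClosed {p : X × X | G.dist p.1 p.2 ≤ E} := isClosed_discrete _
      exact this.preimage hc
  exact ⟨f, (IsClosedEmbedding.of_continuous_injective_isClosedMap hfcont hfinj hfclosed).isEmbedding⟩

end Pool.Agent.Helper67.RC
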